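import Pool.Agent.Run7.h412.NR.Iface

/-!
# MP_0272f9_lc, piece IND: the entries of the colour table are independent and uniform
-/

set_option autoImplicit false

namespace Pool.Agent.Run7.h824.NR

open Pool.Agent.NPC Pool.Agent.Run7.h412.NR

theorem valB_inj : ∀ l l' : List Bool, l.length = l'.length → valB l = valB l' → l = l'
  | [], [], _, _ => rfl
  | [], _ :: _, h, _ => by simp at h
  | _ :: _, [], h, _ => by simp at h
  | a :: l, b :: l', h, h' => by
      simp only [valB_cons] at h'
      have h1 : l.length = l'.length := by simpa using h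
      cases a <;> cases b <;> simp at h'
      · rw [valB_inj l l' h1 (by omega)]
      · omega
      · omega
      · rw [valB_inj l l' h1 (by omega)]

/-- counting functions with prescribed equalities -/
theorem count_pairs {ι L : Type} [Fintype ι] [DecidableEq ι] [Fintype L] [DecidableEq L]
    (x y : L → ι) (hx : Function.Injective x) (hxy : ∀ l m, x l ≠ y m)
    (p : (ι → Bool) → Prop) [DecidablePred p] (hp : ∀ r, p r → ∀ l, r (x l) = r (y l)) :
    (Finset.univ.filter p).card * 2 ^ Fintype.card L ≤ Fintype.card (ι → Bool) := by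
  classical
  have h2 : Fintype.card (L → Bool) = 2 ^ Fintype.card L := by simp
  rw [← h2, ← Finset.card_univ (α := L → Bool), ← Finset.card_product,
    ← Finset.card_univ (α := ι → Bool)]
  let f : (ι → Bool) × (L → Bool) → (ι → Bool) := fun q i =>
    if h : ∃ l, x l = i then q.2 h.choose else q.1 i
  have fx : ∀ q l, f q (x l) = q.2 l := by
    intro q l
    have h : ∃ l', x l' = x l := ⟨l, rfl⟩
    have : f q (x l) = q.2 h.choose := dif_pos h
    rw [this, hx h.choose_spec]
  have fn : ∀ q i, (∀ l, x l ≠ i) → f q i = q.1 i := by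
    intro q i h
    exact dif_neg (by push Not; exact h)
  refine Finset.card_le_card_of_injOn f (fun _ _ => Finset.mem_coe.2 (Finset.mem_univ _)) ?_
  intro a ha b hb hab
  rw [Finset.mem_coe, Finset.mem_product, Finset.mem_filter] at ha hb
  have e2 : a.2 = b.2 := by
    funext l
    rw [← fx a l, ← fx b l, hab]
  have e0 : ∀ i, (∀ l, x l ≠ i) → a.1 i = b.1 i := by
    intro i hi
    rw [← fn a i hi, ← fn b i hi, hab]
  have e1 : a.1 = b.1 := by
    funext i
    by_cases h : ∃ l, x l = i
    · obtain ⟨l, rfl⟩ := h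
      rw [hp a.1 ha.1.2 l, hp b.1 hb.1.2 l]
      exact e0 _ fun m => hxy m l
    · exact e0 i (by push Not at h; exact h)
  exact Prod.ext e1 e2

theorem getD_ofFn {P : ℕ} (r : Fin P → Bool) (k : ℕ) (hk : k < P) :
    (List.ofFn r).getD k false = r ⟨k, hk⟩ := by
  rw [List.getD_eq_getElem?_getD, List.getElem?_ofFn]
  simp [hk]

theorem blk_eq {P : ℕ} (r : Fin P → Bool) (o o' J : ℕ) (ho : o + J ≤ P) (ho' : o' + J ≤ P)
    (h : blk (List.ofFn r) o J = blk (List.ofFn r) o' J) (b : ℕ) (hb : b < J) :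
    r ⟨o + b, by omega⟩ = r ⟨o' + b, by omega⟩ := by
  have h1 := valB_inj _ _ (by simp) h
  have h2 := congrArg (fun l => l.getD b false) h1
  simp only [List.getD_eq_getElem?_getD, List.getElem?_map, List.getElem?_range hb,
    Option.map_some, Option.getD_some] at h2
  rw [← List.getD_eq_getElem?_getD, ← List.getD_eq_getElem?_getD,
    getD_ofFn r _ (by omega), getD_ofFn r _ (by omega)] at h2
  exact h2

theorem pos_inj {N K v i b v' i' b' : ℕ} (hi : i < N) (hi' : i' < N) (hb : b < K) (hb' : b' < K)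
    (h : (v * N + i) * K + b = (v' * N + i') * K + b') : v = v' ∧ i = i' ∧ b = b' := by
  have h1 : v * N + i = v' * N + i' := by
    have e1 : ((v * N + i) * K + b) / K = v * N + i := by
      rw [Nat.add_comm, Nat.add_mul_div_right _ _ (by omega), Nat.div_eq_of_lt hb, zero_add]
    have e2 : ((v' * N + i') * K + b') / K = v' * N + i' := by
      rw [Nat.add_comm, Nat.add_mul_div_right _ _ (by omega), Nat.div_eq_of_lt hb', zero_add]
    rw [← e1, ← e2, h]
  have h2 : b = b' := by rw [h1] at h; omega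
  have h3 : v = v' := by
    have e1 : (v * N + i) / N = v := by
      rw [Nat.add_comm, Nat.add_mul_div_right _ _ (by omega), Nat.div_eq_of_lt hi, zero_add]
    have e2 : (v' * N + i') / N = v' := by
      rw [Nat.add_comm, Nat.add_mul_div_right _ _ (by omega), Nat.div_eq_of_lt hi', zero_add]
    rw [← e1, ← e2, h1]
  refine ⟨h3, ?_, h2⟩
  rw [h3] at h1; omega

/-- IND: the entries of the colour table are independent and uniform. -/
theorem t_IND : S_IND := by
  intro n J hJ P hlt h1 h12 _
  classical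
  have hend : ∀ a : Fin n × ℕ, a.2 < N n → (a.1.1 * N n + a.2) * Jm n + J ≤ P2 n := by
    intro a ha
    have e1 : a.1.1 * N n + a.2 + 1 ≤ n * N n := by
      have := a.1.2
      calc a.1.1 * N n + a.2 + 1 ≤ a.1.1 * N n + N n := by omega
        _ = (a.1.1 + 1) * N n := by ring
        _ ≤ n * N n := Nat.mul_le_mul_right _ (by omega)
    calc (a.1.1 * N n + a.2) * Jm n + J ≤ (a.1.1 * N n + a.2) * Jm n + Jm n := by omega
      _ = (a.1.1 * N n + a.2 + 1) * Jm n := by ring
      _ ≤ n * N n * Jm n := Nat.mul_le_mul_right _ e1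
      _ = P2 n := rfl
  let x : {a // a ∈ P} × Fin J → Fin (P2 n) := fun l =>
    ⟨(l.1.1.1.1.1 * N n + l.1.1.1.2) * Jm n + l.2.1, by
      have := hend l.1.1.1 (hlt _ l.1.2).1
      have := l.2.2
      omega⟩
  let y : {a // a ∈ P} × Fin J → Fin (P2 n) := fun l =>
    ⟨(l.1.1.2.1.1 * N n + l.1.1.2.2) * Jm n + l.2.1, by
      have := hend l.1.1.2 (hlt _ l.1.2).2
      have := l.2.2
      omega⟩
  have hx : Function.Injective x := by
    intro l m h
    have h' := congrArg Fin.val h
    obtain ⟨e1, e2, e3⟩ := pos_inj (hlt _ l.1.2).1 (hlt _ m.1.2).1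
      (lt_of_lt_of_le l.2.2 hJ) (lt_of_lt_of_le m.2.2 hJ) h'
    refine Prod.ext (Subtype.ext (h1 _ l.1.2 _ m.1.2 (Prod.ext (Fin.ext e1) e2))) (Fin.ext e3)
  have hxy : ∀ l m, x l ≠ y m := by
    intro l m h
    have h' := congrArg Fin.val h
    obtain ⟨e1, e2, e3⟩ := pos_inj (hlt _ l.1.2).1 (hlt _ m.1.2).2
      (lt_of_lt_of_le l.2.2 hJ) (lt_of_lt_of_le m.2.2 hJ) h'
    exact h12 _ l.1.2 _ m.1.2 (Prod.ext (Fin.ext e1) e2)
  have key := count_pairs x y hx hxy
    (fun r : Fin (P2 n) → Bool => ∀ a ∈ P, blk (List.ofFn r) ((a.1.1.1 * N n + a.1.2) * Jm n) J =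
      blk (List.ofFn r) ((a.2.1.1 * N n + a.2.2) * Jm n) J) (by
      intro r hr l
      exact blk_eq r _ _ J (hend l.1.1.1 (hlt _ l.1.2).1) (hend l.1.1.2 (hlt _ l.1.2).2)
        (hr _ l.1.2) l.2.1 l.2.2)
  have hc : Fintype.card ({a // a ∈ P} × Fin J) = J * P.card := by
    rw [Fintype.card_prod, Fintype.card_coe, Fintype.card_fin, Nat.mul_comm]
  rw [hc, pow_mul] at key
  convert key using 3

end Pool.Agent.Run7.h824.NR
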